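import Pool.Agent.Results.MP_e426f4_ag.RandomHypersurfacesInProducts
import Pool.Agent.X67.GD.Poly

/-!
# The Hasse principle for ALL rationally connected hypersurfaces in products of projective spaces near generic dilates,
# of all multidegrees at once

Let `L_r` be real numbers (for example `L_r = r`). There are numbers `g_r` such that for every sequence `v_r ≥ g_r`, ALL
multidegrees `d` of rationally connected hypersurfaces in products of projective spaces
`ℙ^(n 0) × ⋯ × ℙ^(n (k-1))` (`k ≥ 1`, `n i ≥ 1`, `d i ≥ 1`, `d i < n i + 1` for at least one `i`) and almost all real forms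
`α` of multidegree `d` (given by their coefficients): for all large `r` the Hasse principle holds for ALL the
hypersurfaces `f = 0` with integral forms `f` of multidegree `d` whose coefficients differ from those of `v_r α` by at
most `L_r`: if there are points over the real numbers and over all the `p`-adic fields, then there is a rational point.

In the starting result `RandomHypersurfacesInProducts` the Hasse principle holds for 100% of the hypersurfaces with
coefficients bounded by `H`; the exceptions (for example among the conic bundle surfaces of bidegree `(2, d)` in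
`ℙ² × ℙ¹`, where the Hasse principle can fail) could be in each of the cubes. For `L_r → ∞` the cubes contain forms in
all residue classes modulo any given number. Proof: Borel-Cantelli.
-/

set_option autoImplicit false

namespace Pool.Agent.Results.MP_e426f4_ag.GenericDilates

open Filter MeasureTheory Finset
open Pool.Agent.X67.GD (AllNear DensityOne form)
open RandomHypersurfacesInProducts (LocallySoluble HasPoint Forms)

/-- the monomials of multidegree `d` -/
noncomputable def multiMons {k : ℕ} (n d : Fin k → ℕ) : Finset ((Σ i : Fin k, Fin (n i + 1)) →₀ ℕ) :=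
  (Finset.univ.finsuppAntidiag (∑ i, d i)).filter fun m => ∀ i : Fin k, ∑ j : Fin (n i + 1), m ⟨i, j⟩ = d i

theorem mem_multiMons {k : ℕ} {n d : Fin k → ℕ} {m : (Σ i : Fin k, Fin (n i + 1)) →₀ ℕ} :
    m ∈ multiMons n d ↔ ∀ i : Fin k, ∑ j : Fin (n i + 1), m ⟨i, j⟩ = d i := by
  unfold multiMons
  rw [mem_filter, mem_finsuppAntidiag]
  refine ⟨fun h => h.2, fun h => ⟨⟨?_, fun _ _ => mem_univ _⟩, h⟩⟩
  rw [Fintype.sum_sigma]
  exact sum_congr rfl fun i _ => h i

/-- the data `(k, n, d)` of the rationally connected hypersurfaces -/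
abbrev RCType : Type :=
  {x : (Σ k : ℕ, (Fin k → ℕ) × (Fin k → ℕ)) //
    0 < x.1 ∧ (∀ i, 1 ≤ x.2.1 i) ∧ (∀ i, 1 ≤ x.2.2 i) ∧ ∃ i, x.2.2 i < x.2.1 i + 1}

theorem density (k : ℕ) (n d : Fin k → ℕ) (hk : 0 < k) (hn : ∀ i, 1 ≤ n i) (hd : ∀ i, 1 ≤ d i)
    (hrc : ∃ i, d i < n i + 1) :
    DensityOne (fun w : ↥(multiMons n d) → ℤ =>
      LocallySoluble (form (multiMons n d) w) → HasPoint ℚ (form (multiMons n d) w)) := by
  refine Pool.Agent.X67.GD.densityOne_of_ratio (form (multiMons n d)) (Pool.Agent.X67.GD.form_injective _)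
    (fun H => Forms n d H) (fun H => ?_) (fun _ f => LocallySoluble f ∧ HasPoint ℚ f)
    (HasPoint ℚ) LocallySoluble (fun _ f _ hf => hf.1) (Eventually.of_forall fun _ f _ hf => hf.2)
    (RandomHypersurfacesInProducts.result k n d hk hn hd hrc)
  rw [← Pool.Agent.X67.GD.form_image]
  ext f
  exact and_congr (forall_congr' fun m => imp_congr_right fun _ => mem_multiMons.symm) Iff.rfl

/-- **Theorem.** Let `L_r` be real numbers. There are numbers `g_r` such that for every sequence `v` with `v_r ≥ g_r` for
all large `r`, ALL `k ≥ 1`, `n i ≥ 1`, `d i ≥ 1` (`i < k`) with `d i < n i + 1` for at least one `i` and almost all real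
coefficient vectors `α` of forms of multidegree `d`: for all large `r`, for ALL integral forms `f` of multidegree `d`
whose coefficients differ from those of `v_r α` by at most `L_r`, the hypersurface `f = 0` in
`ℙ^(n 0) × ⋯ × ℙ^(n (k-1))` has a rational point if it has points over the real numbers and over all the `p`-adic
fields. -/
theorem result (L : ℕ → ℝ) : ∃ g : ℕ → ℝ, ∀ v : ℕ → ℝ, (∀ᶠ r in atTop, g r ≤ v r) →
    ∀ (k : ℕ) (n d : Fin k → ℕ), 0 < k → (∀ i, 1 ≤ n i) → (∀ i, 1 ≤ d i) → (∃ i, d i < n i + 1) →
      ∀ᵐ α : ↥(multiMons n d) → ℝ,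
        AllNear (fun w => LocallySoluble (form (multiMons n d) w) → HasPoint ℚ (form (multiMons n d) w)) L v α := by
  obtain ⟨g, hg⟩ := Pool.Agent.X67.GD.exists_gauge_all (ι := RCType)
    (fun x => ↥(multiMons x.1.2.1 x.1.2.2))
    (fun x w => LocallySoluble (form (multiMons x.1.2.1 x.1.2.2) w) →
      HasPoint ℚ (form (multiMons x.1.2.1 x.1.2.2) w))
    (fun x => density x.1.1 x.1.2.1 x.1.2.2 x.2.1 x.2.2.1 x.2.2.2.1 x.2.2.2.2) L
  exact ⟨g, fun v hv k n d hk hn hd hrc => hg v hv ⟨⟨k, n, d⟩, hk, hn, hd, hrc⟩⟩

end Pool.Agent.Results.MP_e426f4_ag.GenericDilates
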