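import Pool.Agent.Results.MP_e426f4_ag.ProductsOfConics
import Pool.Agent.X283.DA.LogInt

/-!
# Brauer-Manin obstruction for ALL fibrations in products of conics near fast sequences, or by denominators

From the team's `ProductsOfConics` (its definition is used as it is), for `f ∈ ℤ[X]`, integers `a i`, `b i`
(`i < r`) and the variety `W_k : yᵢ² - aᵢ zᵢ² = bᵢ t (f(t) + k) ≠ 0`: `WB f a b T M k`: weak approximation of
level `M` at the primes of `T` for the points of `W_k` orthogonal to the algebras `(aᵢ, t)`: all families of
`p`-adic points of `W_k`, `p ∈ T`, with coordinates of absolute value at most `p ^ M`,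
`|t|, |f(t) + k| ≥ p ^ (-M)`, and of a real point, such that the degree of `f` is odd or for every `i` the
sum of the invariants of `(aᵢ, t)` at these points is `0`, are at the distance at most `p ^ (-M)` from one
rational point of `W_k`, whose coordinate `t` has the sign of that of the real point.

For almost all `t > 1` and ALL data `(r, f, a, b, T, M, h, B)` at once it holds, for all large `n`, for ALL
integers `k` with `||k - h| - t ^ κ_n| ≤ κ_n ^ B`, for instance `κ_n = n`. The same for `α exp(κ_n)` in
place of `t ^ κ_n` and for `|k - h|` a large denominator `q` of an approximation to a point `x ∈ ℝ ^ d`, as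
good as in Dirichlet's theorem up to any power of `log q`, for almost all `x`.
-/

set_option autoImplicit false

namespace Pool.Agent.Results.MP_e426f4_ag.PowersAndDenominators

open Finset Polynomial
open Pool.Agent.X283.DA
open Pool.Agent.Results.MP_e426f4_ag.ProductsOfConics (WB)

/-- the data: `r`, `f`, `a`, `b`, `T`, `M`, `h` -/
abbrev Data : Type := (r : ℕ) × (ℤ[X] × (Fin r → ℤ) × (Fin r → ℤ) × Finset Nat.Primes × ℕ × ℤ)

/-- the conditions on the data: `f` is not constant, `a i`, `b i` are not `0`, and `T` contains the primes at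
most `2 deg f` and those dividing `a i`, `b i` or the leading coefficient of `f` -/
def Admissible {r : ℕ} (f : ℤ[X]) (a b : Fin r → ℤ) (T : Finset Nat.Primes) : Prop :=
  1 ≤ f.natDegree ∧ (∀ i, a i ≠ 0) ∧ (∀ i, b i ≠ 0) ∧
    ∀ p : Nat.Primes, ((p : ℕ) ≤ 2 * f.natDegree ∨ ((p : ℕ) : ℤ) ∣ f.leadingCoeff * ∏ i, (a i * b i)) → p ∈ T

/-- if the data `D = (r, f, a, b, T, M, h)` are admissible then `WB f a b T M k` holds for both `k = h ± m` -/
def Approx (D : Data) (m : ℕ) : Prop :=
  Admissible D.2.1 D.2.2.1 D.2.2.2.1 D.2.2.2.2.1 →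
    ∀ k : ℤ, (k - D.2.2.2.2.2.2).natAbs = m →
      WB D.2.1 D.2.2.1 D.2.2.2.1 D.2.2.2.2.1 D.2.2.2.2.2.1 k

/-- **Theorem.** The properties `Approx D` of natural numbers, for all data `D` at once, hold near the fast
sequences `t ^ κ_n` and `α exp(κ_n)` (`AnyFast`) and for the denominators of good simultaneous
(inhomogeneous) rational approximations (`AnyDenominators`), up to arbitrary powers of the logarithm. -/
theorem result : AnyFast Approx ∧ AnyDenominators Approx := by
  classical
  have hcm : Countable ℤ[X] := by
    rw [← Cardinal.mk_le_aleph0_iff]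
    refine Polynomial.cardinalMk_le_max.trans ?_
    simp
  have hcount : Countable Data := inferInstance
  refine pack_any Approx fun D b _ => ?_
  obtain ⟨r, f, a, c, T, M, h⟩ := D
  by_cases hA : Admissible f a c T
  · refine logSparse_of_int (Bad := fun k => ¬ WB f a c T M k) h (fun m hm => ?_) (fun U => ?_) b
    · have hm' : ¬ Approx ⟨r, f, a, c, T, M, h⟩ m := hm
      unfold Approx at hm'
      push Not at hm'
      obtain ⟨-, k, h1, h2⟩ := hm'
      exact ⟨k, h1, h2⟩
    · obtain ⟨X₀, hX⟩ := ProductsOfConics.result r f hA.1 a c hA.2.1 hA.2.2.1 T hA.2.2.2 M U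
      exact ⟨X₀, fun X hXX => le_trans (le_of_eq (by congr!)) (hX X hXX)⟩
  · refine logSparse_empty (fun m hm => ?_) b
    have hm' : ¬ Approx ⟨r, f, a, c, T, M, h⟩ m := hm
    exact hm' fun h' => absurd h' hA

end Pool.Agent.Results.MP_e426f4_ag.PowersAndDenominators
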