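import Pool.Agent.X20.Tr.Int
import Pool.Agent.X20.Tr.Sqf
import Pool.Agent.Results.MP_e426f4_ag.ProductsOfConics

/-!
# Brauer-Manin obstruction for the fibrations `yᵢ² - aᵢ zᵢ² = bᵢ t (f(t) + k)` in products of conics, `k = h ± ⌊α n ^ c⌋`

From Mathlib: `dimH E`: the Hausdorff dimension; `⌊x⌋₊`: the integer part; `Finset.Icc 1 N`: the integers from `1` to
`N`. From the team's `ProductsOfConics` (its definition is used as it is), for `f ∈ ℤ[X]`, integers `a i`, `b i` (`i < r`)
and the variety `W_k : yᵢ² - aᵢ zᵢ² = bᵢ t (f(t) + k) ≠ 0`: `WB f a b T M k`: weak approximation of level `M` at the primes of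
`T` for the points of `W_k` orthogonal to the algebras `(aᵢ, t)`: all families of `p`-adic points of `W_k`, `p ∈ T`, with
coordinates of absolute value at most `p ^ M`, `|t|, |f(t) + k| ≥ p ^ (-M)`, and of a real point, such that the degree of `f`
is odd or for every `i` the sum of the invariants of `(aᵢ, t)` at these points is `0`, are at the distance at most `p ^ (-M)`
from one rational point of `W_k`, whose coordinate `t` has the sign of that of the real point.
-/

set_option autoImplicit false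

namespace Pool.Agent.Results.MP_e426f4_ag.SparseProductsOfConics

open Finset Filter Polynomial
open Pool.Agent.X20.Tr
open Pool.Agent.Results.MP_e426f4_ag.ProductsOfConics (WB)

open Classical in
/-- for every `U`, for all large `N` all but at most `N / (log N) ^ U` of the `n ≤ N` have the property
`P (h + s ⌊α n ^ c⌋)` -/
def AlmostAll (c α : ℝ) (h s : ℤ) (P : ℤ → Prop) : Prop :=
  ∀ U : ℕ, ∃ N₀ : ℕ, ∀ N : ℕ, N₀ ≤ N →
    (((Icc 1 N).filter (fun n : ℕ => ¬ P (h + s * ((⌊α * (n : ℝ) ^ c⌋₊ : ℕ) : ℤ)))).card : ℝ) ≤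
      N / (Real.log N) ^ U

/-- the data: `r`, `f`, `a`, `b`, `T`, `M` -/
abbrev Data : Type := (r : ℕ) × (ℤ[X] × (Fin r → ℤ) × (Fin r → ℤ) × Finset Nat.Primes × ℕ)

/-- For every real `c > 1` there are `κ > 0` and a set `E` of real numbers of Hausdorff dimension at most `1 - κ`
such that for every real `α > 0` outside `E`, for ALL `r`, all nonconstant `f ∈ ℤ[X]`, all nonzero integers `a i`, `b i`, all
finite sets `T` of primes which contain those at most `2 deg f` and those dividing `a i`, `b i` or the leading coefficient of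
`f`, all `M`, all integers `h` and both signs `s`: for all but `N / (log N) ^ U` of the `n ≤ N` (every `U`, `N` large) weak
approximation of level `M` at `T` of the points orthogonal to the algebras `(aᵢ, t)` holds for `W_k`,
`k = h + s ⌊α n ^ c⌋`. -/
theorem result (c : ℝ) (hc : 1 < c) : ∃ κ : ℝ, 0 < κ ∧ κ < 1 ∧ ∃ E : Set ℝ, dimH E ≤ ENNReal.ofReal (1 - κ) ∧
    ∀ α : ℝ, 0 < α → α ∉ E → ∀ (r : ℕ) (f : ℤ[X]) (a b : Fin r → ℤ),
      1 ≤ f.natDegree → (∀ i, a i ≠ 0) → (∀ i, b i ≠ 0) → ∀ T : Finset Nat.Primes,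
      (∀ p : Nat.Primes, ((p : ℕ) ≤ 2 * f.natDegree ∨ ((p : ℕ) : ℤ) ∣ f.leadingCoeff * ∏ i, (a i * b i)) → p ∈ T) →
      ∀ (M : ℕ) (h s : ℤ), (s = 1 ∨ s = -1) → AlmostAll c α h s (fun k => WB f a b T M k) := by
  classical
  obtain ⟨κ, hκ0, hκ1, H⟩ := sparse_all c hc
  have hcm := countable_polys
  have hcount : Countable Data := inferInstance
  obtain ⟨E, hE, hh⟩ := H Data (fun i k => ¬ WB i.2.1 i.2.2.1 i.2.2.2.1 i.2.2.2.2.1 i.2.2.2.2.2 k)
  refine ⟨κ, hκ0, hκ1, E, hE, fun α hα hαE r f a b hf ha hb T hT M h s hs => ?_⟩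
  intro U
  obtain ⟨N₀, hN⟩ := hh α hα hαE ⟨r, f, a, b, T, M⟩ h s hs (fun U => by
    obtain ⟨X₀, hX⟩ := ProductsOfConics.result r f hf a b ha hb T hT M U
    exact ⟨X₀, fun X hXX => le_trans (le_of_eq (by congr!)) (hX X hXX)⟩) U
  exact ⟨N₀, fun N hNN => le_trans (le_of_eq (by congr!)) (hN N hNN)⟩

end Pool.Agent.Results.MP_e426f4_ag.SparseProductsOfConics
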