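import Pool.Agent.Results.MP_e426f4_ag.SmoothHypersurfaces
import Pool.Agent.X67.GD.One

/-!
# The Hasse principle for ALL the twists, near generic dilates, of ALL the smooth diagonal hypersurfaces of bidegree `(d, 2)`

Let `L_k` be real numbers (for example `L_k = k`). There are numbers `g_k` such that for every sequence `v_k ≥ g_k` and
almost all `(α, β) ∈ ℝ²`: for ALL `n, d ≥ 1` and ALL forms `A, B, C` of degree `d` in `x_0, ..., x_n` with integral
coefficients such that the hypersurface `A(x) u² + B(x) v² = C(x) w²` in `ℙⁿ × ℙ²` is smooth, for all large `k`, ALL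
the pairs `(a, b)` of nonzero integers with `|a - v_k α| ≤ L_k`, `|b - v_k β| ≤ L_k` for which
`X_{a,b} : a A(x) u² + b B(x) v² = C(x) w²` has points everywhere locally are such that `X_{a,b}` has a rational point.
For `d ≤ n` the `X_{a,b}` are Fano varieties, and they are rationally connected for all `d` (conic bundles over `ℙⁿ`).

In the starting result `SmoothHypersurfaces` this holds, for given `A, B, C`, for 100% of the pairs `(a, b)` with
`X_{a,b}` everywhere locally soluble; the exceptions could meet each of the squares. Proof: Borel-Cantelli.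
-/

set_option autoImplicit false

namespace Pool.Agent.Results.MP_e426f4_ag.TwistsNearGenericDilates

open Filter MeasureTheory
open Pool.Agent.X67.GD (AllNear DensityOne)
open SmoothHypersurfaces (HasPoint Smooth)

/-- the hypersurface `a A(x) u² + b B(x) v² = C(x) w²` in `ℙⁿ × ℙ²` has a point over `ℝ` and over every `ℚ_p` -/
def LocallySoluble {n : ℕ} (A B C : MvPolynomial (Fin (n + 1)) ℤ) (a b : ℤ) : Prop :=
  HasPoint A B C a b ℝ ∧ ∀ p : Nat.Primes, HasPoint A B C a b ℚ_[(p : ℕ)]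

/-- if `a, b ≠ 0` and the hypersurface has points everywhere locally, then it has a rational point -/
def HassePrinciple {n : ℕ} (A B C : MvPolynomial (Fin (n + 1)) ℤ) (a b : ℤ) : Prop :=
  a ≠ 0 → b ≠ 0 → LocallySoluble A B C a b → HasPoint A B C a b ℚ

theorem density (n d : ℕ) (hn : 1 ≤ n) (hd : 1 ≤ d) (A B C : MvPolynomial (Fin (n + 1)) ℤ)
    (hA : A.IsHomogeneous d) (hB : B.IsHomogeneous d) (hC : C.IsHomogeneous d) (hs : Smooth A B C) :
    DensityOne (fun w : Fin 2 → ℤ => HassePrinciple A B C (w 0) (w 1)) := by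
  obtain ⟨-, h⟩ := SmoothHypersurfaces.result n d hn hd A B C hA hB hC hs
  have key : DensityOne (fun w : Fin 2 → ℤ => ((w 0, w 1).1 ≠ 0 ∧ (w 0, w 1).2 ≠ 0 ∧
      LocallySoluble A B C (w 0, w 1).1 (w 0, w 1).2) → HasPoint A B C (w 0, w 1).1 (w 0, w 1).2 ℚ) := by
    refine Pool.Agent.X67.GD.densityOne_of_ratio (F := ℤ × ℤ) (fun w : Fin 2 → ℤ => (w 0, w 1)) (fun w w' hw => ?_)
      (fun H => {x : ℤ × ℤ | |x.1| ≤ (H : ℤ) ∧ |x.2| ≤ (H : ℤ)}) (fun H => ?_)
      (fun _ x => x.1 ≠ 0 ∧ x.2 ≠ 0 ∧ HasPoint A B C x.1 x.2 ℚ) (fun x => HasPoint A B C x.1 x.2 ℚ)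
      (fun x => x.1 ≠ 0 ∧ x.2 ≠ 0 ∧ LocallySoluble A B C x.1 x.2)
      (fun H x _ hx => ⟨hx.1, hx.2.1, SmoothHypersurfaces.cast_point ℝ hx.2.2,
        fun p => SmoothHypersurfaces.cast_point _ hx.2.2⟩)
      (Eventually.of_forall fun H x _ hx => hx.2.2) ?_
    · have h1 := Prod.mk.inj hw
      funext i
      fin_cases i
      · exact h1.1
      · exact h1.2
    · ext x
      constructor
      · rintro ⟨h1, h2⟩
        refine ⟨![x.1, x.2], fun l => ?_, rfl⟩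
        fin_cases l
        · exact h1
        · exact h2
      · rintro ⟨w, hw, rfl⟩
        exact ⟨hw 0, hw 1⟩
    · refine h.congr fun H => ?_
      have e1 : SmoothHypersurfaces.globallySoluble A B C H = {x : ℤ × ℤ | (|x.1| ≤ (H : ℤ) ∧ |x.2| ≤ (H : ℤ)) ∧
          (x.1 ≠ 0 ∧ x.2 ≠ 0 ∧ HasPoint A B C x.1 x.2 ℚ)} := by
        ext x
        exact ⟨fun hx => ⟨⟨hx.1, hx.2.1⟩, hx.2.2⟩, fun hx => ⟨hx.1.1, hx.1.2, hx.2⟩⟩
      have e2 : SmoothHypersurfaces.locallySoluble A B C H = {x : ℤ × ℤ | (|x.1| ≤ (H : ℤ) ∧ |x.2| ≤ (H : ℤ)) ∧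
          (x.1 ≠ 0 ∧ x.2 ≠ 0 ∧ LocallySoluble A B C x.1 x.2)} := by
        ext x
        exact ⟨fun hx => ⟨⟨hx.1, hx.2.1⟩, hx.2.2⟩, fun hx => ⟨hx.1.1, hx.1.2, hx.2⟩⟩
      rw [e1, e2]
      rfl
  have e : (fun w : Fin 2 → ℤ => HassePrinciple A B C (w 0) (w 1)) =
      (fun w : Fin 2 → ℤ => ((w 0, w 1).1 ≠ 0 ∧ (w 0, w 1).2 ≠ 0 ∧
        LocallySoluble A B C (w 0, w 1).1 (w 0, w 1).2) → HasPoint A B C (w 0, w 1).1 (w 0, w 1).2 ℚ) := by
    funext w
    exact propext ⟨fun h3 h4 => h3 h4.1 h4.2.1 h4.2.2, fun h3 h4 h5 h6 => h3 ⟨h4, h5, h6⟩⟩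
  rw [e]
  exact key

/-- the data `(n, d, A, B, C)` -/
abbrev Data : Type := Σ n : ℕ, ℕ × MvPolynomial (Fin (n + 1)) ℤ × MvPolynomial (Fin (n + 1)) ℤ ×
  MvPolynomial (Fin (n + 1)) ℤ

/-- the conditions on the data -/
def Ok (x : Data) : Prop :=
  1 ≤ x.1 ∧ 1 ≤ x.2.1 ∧ x.2.2.1.IsHomogeneous x.2.1 ∧ x.2.2.2.1.IsHomogeneous x.2.1 ∧
    x.2.2.2.2.IsHomogeneous x.2.1 ∧ Smooth x.2.2.1 x.2.2.2.1 x.2.2.2.2

/-- **Theorem.** Let `L_k` be real numbers. There are numbers `g_k` such that for every sequence `v` with `v_k ≥ g_k` for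
all large `k` and almost all `α ∈ ℝ²`: for ALL `n, d ≥ 1` and all forms `A, B, C` of degree `d` in `n + 1` variables with
integral coefficients for which the hypersurface `A u² + B v² = C w²` in `ℙⁿ × ℙ²` is smooth, for all large `k`, for ALL
pairs of nonzero integers `a, b` with `|a - v_k α_0| ≤ L_k`, `|b - v_k α_1| ≤ L_k`: if `a A u² + b B v² = C w²` has points
over the real numbers and over all the `p`-adic fields, then it has a rational point. -/
theorem result (L : ℕ → ℝ) : ∃ g : ℕ → ℝ, ∀ v : ℕ → ℝ, (∀ᶠ k in atTop, g k ≤ v k) → ∀ᵐ α : Fin 2 → ℝ,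
    ∀ (n d : ℕ), 1 ≤ n → 1 ≤ d → ∀ A B C : MvPolynomial (Fin (n + 1)) ℤ, A.IsHomogeneous d →
      B.IsHomogeneous d → C.IsHomogeneous d → Smooth A B C →
        AllNear (fun w : Fin 2 → ℤ => HassePrinciple A B C (w 0) (w 1)) L v α := by
  haveI : Countable Data := inferInstance
  obtain ⟨g, hg⟩ := Pool.Agent.X67.GD.exists_gauge_countable (ι := {x : Data // Ok x}) (κ := Fin 2)
    (fun x w => HassePrinciple x.1.2.2.1 x.1.2.2.2.1 x.1.2.2.2.2 (w 0) (w 1))
    (fun x => density x.1.1 x.1.2.1 x.2.1 x.2.2.1 x.1.2.2.1 x.1.2.2.2.1 x.1.2.2.2.2 x.2.2.2.1 x.2.2.2.2.1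
      x.2.2.2.2.2.1 x.2.2.2.2.2.2) L
  refine ⟨g, fun v hv => ?_⟩
  filter_upwards [hg v hv] with α hα n d hn hd A B C hA hB hC hs
  exact hα ⟨⟨n, d, A, B, C⟩, hn, hd, hA, hB, hC, hs⟩

end Pool.Agent.Results.MP_e426f4_ag.TwistsNearGenericDilates
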